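import Mathlib
import Pool.Agent.TH186.Balls.Main

/-!
# MP_2f27c1_co: finite graphs all of whose balls expand do not have purely exponential growth

If all induced balls of a finite connected graph of bounded degree are `h`-expanders and the graph
is large, then its largest ball sizes `M(r)` exceed every exponential `λ ^ r ≤ M(r)` by a
polynomial factor.
-/

set_option autoImplicit false

universe u

namespace Pool.Agent.Results.MP_2f27c1_co.GrowthDefect

/-- the ball of radius `r` around `v` -/
def ball {V : Type u} (G : SimpleGraph V) (v : V) (r : ℕ) : Set V := {w | G.dist v w ≤ r}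

/-- the outer vertex boundary of `S` in the induced subgraph `G[B]` -/
def boundary {V : Type u} (G : SimpleGraph V) (B S : Set V) : Set V :=
  {w | w ∈ B ∧ w ∉ S ∧ ∃ u ∈ S, G.Adj u w}

/-- every induced ball of `G` has vertex expansion at least `h` -/
def BallsExpand {V : Type u} (G : SimpleGraph V) (h : ℝ) : Prop :=
  ∀ (v : V) (r : ℕ) (S : Set V), S ⊆ ball G v r → S.Nonempty →
    2 * S.ncard ≤ (ball G v r).ncard →
      h * (S.ncard : ℝ) ≤ ((boundary G (ball G v r) S).ncard : ℝ)

open Pool.Agent.TH186 in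
/-- For all `D` and `h > 0` there are `C > 0` and `k` such that for every finite connected graph
of maximum degree at most `D` all of whose induced balls are `h`-expanders, and every `J ≥ 1` with
`2 (D + 1) ^ N ≤ |V|`, where `N = J (2 J (D + 1) + 2)`: for every `lam > 0` such that for each
`r ≤ N` some ball of radius `r` has at least `lam ^ r` vertices, some ball of radius `j ≤ J` has at
least `(J / C) ^ (1 / k) * lam ^ j` vertices. -/
theorem result (D : ℕ) (h : ℝ) (hh : 0 < h) : ∃ C : ℝ, 0 < C ∧ ∃ k : ℕ,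
    ∀ (V : Type u) [Finite V] (G : SimpleGraph V), G.Connected →
      (∀ v, (G.neighborSet v).ncard ≤ D) → BallsExpand G h →
      ∀ J : ℕ, 1 ≤ J → 2 * (D + 1) ^ (J * (2 * J * (D + 1) + 2)) ≤ Nat.card V →
        ∀ lam : ℝ, 0 < lam →
          (∀ r ≤ J * (2 * J * (D + 1) + 2), ∃ v, lam ^ r ≤ ((ball G v r).ncard : ℝ)) →
          ∃ j ≤ J, ∃ v, (J : ℝ) ≤ C * (((ball G v j).ncard : ℝ) / lam ^ j) ^ k := by
  classical
  obtain ⟨C, hC, k, hk⟩ := Balls.main.{u} D h hh
  refine ⟨C, hC, k, ?_⟩
  intro V _ G hc hdeg hexp J hJ hcard lam hlam hl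
  have hfin : ∀ v, (G.neighborSet v).Finite := fun v => Set.toFinite _
  have hball : ∀ v r, (ball G v r).ncard = (Balls.ball G v r).card := by
    intro v r
    rw [← Set.ncard_coe_finset]
    congr 1
    ext w
    rw [Finset.mem_coe, Balls.mem_ball hc hfin]
    exact Iff.rfl
  have hnb : ∀ v, (Balls.nb G v).card ≤ D := by
    intro v
    have h1 : (G.neighborSet v).ncard = (Balls.nb G v).card := by
      rw [← Set.ncard_coe_finset]
      congr 1
      ext w
      rw [Finset.mem_coe, Balls.mem_nb hfin]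
      exact Iff.rfl
    rw [← h1]
    exact hdeg v
  have H : Balls.Hyp G D h := by
    refine ⟨hc, hfin, hnb, hh, ?_⟩
    intro v r S hS h2
    rcases S.eq_empty_or_nonempty with rfl | hne
    · rw [Finset.card_empty, Nat.cast_zero, mul_zero]
      exact Nat.cast_nonneg _
    have hmem : ∀ w, w ∈ ball G v r ↔ w ∈ Balls.ball G v r := by
      intro w
      rw [Balls.mem_ball hc hfin]
      exact Iff.rfl
    have h3 := hexp v r (S : Set V) (fun w hw => (hmem w).2 (hS hw)) hne
      (by rw [Set.ncard_coe_finset, hball]; exact h2)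
    rw [Set.ncard_coe_finset] at h3
    refine h3.trans (le_of_eq ?_)
    rw [← Set.ncard_coe_finset]
    congr 2
    ext w
    rw [Finset.mem_coe, Finset.mem_filter]
    show w ∈ ball G v r ∧ w ∉ (S : Set V) ∧ (∃ u ∈ (S : Set V), G.Adj u w) ↔ _
    rw [hmem w]
    exact Iff.rfl
  obtain ⟨v0⟩ := hc.nonempty
  have := Fintype.ofFinite V
  have hgrow : ∀ r ≤ J * (2 * J * (D + 1) + 2), ∃ v,
      (1 + h) ^ r ≤ ((Balls.ball G v r).card : ℝ) := by
    intro r hr
    refine ⟨v0, H.growth_pow (n := J * (2 * J * (D + 1) + 2)) (s := Finset.univ) ?_ r hr⟩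
    have h1 := H.card_le v0 (J * (2 * J * (D + 1) + 2))
    rw [Finset.card_univ, ← Nat.card_eq_fintype_card]
    omega
  obtain ⟨j, hj, v, hv⟩ := hk V G H J hJ lam hlam
    (by
      intro r hr
      obtain ⟨v, hv⟩ := hl r hr
      exact ⟨v, by rwa [← hball]⟩) hgrow
  exact ⟨j, hj, v, by rwa [hball]⟩

end Pool.Agent.Results.MP_2f27c1_co.GrowthDefect
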