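import Mathlib
import Pool.Agent.TH186.Balls.Square

/-!
# MP_2f27c1_co: Cartesian squares have non-expanding balls of bounded radius

For all `D` and `h > 0` there is `R` such that in the Cartesian square of every connected graph with
at least `R` vertices and maximum degree at most `D`, around every diagonal vertex, some induced
ball of radius at most `R` is not an `h`-expander.
-/

set_option autoImplicit false

universe u

namespace Pool.Agent.Results.MP_2f27c1_co.SquareGraphs

/-- the ball of radius `r` around `v` -/
def ball {V : Type u} (G : SimpleGraph V) (v : V) (r : ℕ) : Set V := {w | G.dist v w ≤ r}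

/-- the outer vertex boundary of `S` in the induced subgraph `G[B]` -/
def boundary {V : Type u} (G : SimpleGraph V) (B S : Set V) : Set V :=
  {w | w ∈ B ∧ w ∉ S ∧ ∃ u ∈ S, G.Adj u w}

/-- the induced subgraph `G[B]` is an `h`-expander: its vertex expansion is at least `h` -/
def IsExpander {V : Type u} (G : SimpleGraph V) (B : Set V) (h : ℝ) : Prop :=
  ∀ S : Set V, S ⊆ B → S.Nonempty → 2 * S.ncard ≤ B.ncard →
    h * (S.ncard : ℝ) ≤ ((boundary G B S).ncard : ℝ)

open Pool.Agent.TH186 in
/-- For all `D` and `h > 0` there is `R` such that for every finite connected graph `G` with at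
least `R` vertices and maximum degree at most `D` and every vertex `v`, some induced ball of radius
at most `R` around `(v, v)` in the Cartesian square of `G` is not an `h`-expander. -/
theorem result (D : ℕ) (h : ℝ) (hh : 0 < h) : ∃ R : ℕ,
    ∀ (V : Type u) [Finite V] (G : SimpleGraph V), G.Connected →
      (∀ v, (G.neighborSet v).ncard ≤ D) → R ≤ Nat.card V →
      ∀ v : V, ∃ r ≤ R, ¬ IsExpander (G.boxProd G) (ball (G.boxProd G) (v, v) r) h := by
  classical
  obtain ⟨R, hR⟩ := Balls.square_main.{u} D h hh
  refine ⟨R, ?_⟩
  intro V _ G hc hdeg hcard v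
  by_contra hcon
  push Not at hcon
  have hfin : ∀ v, (G.neighborSet v).Finite := fun v => Set.toFinite _
  have hfin2 : ∀ x, ((G.boxProd G).neighborSet x).Finite := fun x => Set.toFinite _
  have hc2 := hc.boxProd hc
  have hdeg' : Balls.Deg G D := by
    refine ⟨hc, hfin, ?_⟩
    intro v
    have h1 : (G.neighborSet v).ncard = (Balls.nb G v).card := by
      rw [← Set.ncard_coe_finset]
      congr 1
      ext w
      rw [Finset.mem_coe, Balls.mem_nb hfin]
      exact Iff.rfl
    rw [← h1]
    exact hdeg v
  have := Fintype.ofFinite V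
  refine hR V G hdeg' ⟨Finset.univ, ?_⟩ v ?_
  · rw [Finset.card_univ, ← Nat.card_eq_fintype_card]
    exact hcard
  · refine ⟨hc2, hfin2, hh, ?_⟩
    intro r hr S hS h2
    rcases S.eq_empty_or_nonempty with rfl | hne
    · rw [Finset.card_empty, Nat.cast_zero, mul_zero]
      exact Nat.cast_nonneg _
    have hmem : ∀ w, w ∈ ball (G.boxProd G) (v, v) r ↔ w ∈ Balls.ball (G.boxProd G) (v, v) r := by
      intro w
      rw [Balls.mem_ball hc2 hfin2]
      exact Iff.rfl
    have hcb : (ball (G.boxProd G) (v, v) r).ncard =
        (Balls.ball (G.boxProd G) (v, v) r).card := by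
      rw [← Set.ncard_coe_finset]
      congr 1
      ext w
      rw [Finset.mem_coe, ← hmem]
    have h3 := hcon r hr (S : Set (V × V)) (fun w hw => (hmem w).2 (hS hw)) hne
      (by rw [Set.ncard_coe_finset, hcb]; exact h2)
    rw [Set.ncard_coe_finset] at h3
    refine h3.trans (le_of_eq ?_)
    have h4 : boundary (G.boxProd G) (ball (G.boxProd G) (v, v) r) (S : Set (V × V)) =
        (((Balls.ball (G.boxProd G) (v, v) r).filter
          (fun w => w ∉ S ∧ ∃ u ∈ S, (G.boxProd G).Adj u w) : Finset (V × V)) : Set (V × V)) := by
      ext w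
      rw [Finset.mem_coe, Finset.mem_filter, ← hmem w]
      exact Iff.rfl
    rw [h4, Set.ncard_coe_finset]
    congr!

end Pool.Agent.Results.MP_2f27c1_co.SquareGraphs
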